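import Mathlib

set_option autoImplicit false
set_option linter.all false

/-! # Suslin's hypothesis, the open colouring axiom and rigid chains -/

namespace Pool.Agent.Helper330.SRO

open Set Cardinal

/-- Suslin's hypothesis: every linearly ordered space in which each family of pairwise disjoint
nonempty open sets is countable is separable. -/
def SuslinHypothesis : Prop :=
  ∀ (C : Type) [LinearOrder C] [TopologicalSpace C] [OrderTopology C],
    (∀ U : Set (Set C), (∀ V ∈ U, IsOpen V ∧ V.Nonempty) → U.PairwiseDisjoint id → U.Countable) →
    TopologicalSpace.SeparableSpace C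

/-- Todorcevic's open colouring axiom: if `X` is a separable metrizable space and `U` is a
symmetric relation on `X` such that the set of the pairs of different points in `U` is open, then
either there is an uncountable `Y` all of whose pairs of different points are in `U`, or `X` is the
union of countably many sets none of whose pairs of different points is in `U`. -/
def OpenColouringAxiom : Prop :=
  ∀ (X : Type) [TopologicalSpace X] [SecondCountableTopology X]
    [TopologicalSpace.MetrizableSpace X] (U : X → X → Prop),
    (∀ x y, U x y → U y x) → IsOpen {p : X × X | p.1 ≠ p.2 ∧ U p.1 p.2} →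
    (∃ Y : Set X, ¬ Y.Countable ∧ ∀ x ∈ Y, ∀ y ∈ Y, x ≠ y → U x y) ∨
      ∃ Z : ℕ → Set X, (⋃ n, Z n) = Set.univ ∧ ∀ n, ∀ x ∈ Z n, ∀ y ∈ Z n, x ≠ y → ¬ U x y

/-- a strictly increasing partial map moving uncountably many points -/
def Mover (C : Type) [LinearOrder C] : Prop :=
  ∃ (E : Set C) (f : C → C), ¬ E.Countable ∧ (∀ x ∈ E, ∀ y ∈ E, x < y → f x < f y) ∧
    ∀ x ∈ E, f x ≠ x

end Pool.Agent.Helper330.SRO
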