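import Pool.Agent.Helper330.SRO.Defs

set_option autoImplicit false
set_option linter.all false

/-! # Suslin's hypothesis, the open colouring axiom and rigid chains -/

namespace Pool.Agent.Helper330.SRO
open Set Cardinal


theorem jump (C : Type) [LinearOrder C] (h : ¬ {x : C | ∃ y, x ⋖ y}.Countable) : Mover C := by
  classical
  refine ⟨{x : C | ∃ y, x ⋖ y}, fun x => if hx : ∃ y, x ⋖ y then hx.choose else x, h, ?_, ?_⟩
  · intro x hx y hy hxy
    have hx' : ∃ y, x ⋖ y := hx
    have hy' : ∃ z, y ⋖ z := hy
    simp only [dif_pos hx', dif_pos hy']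
    have h1 := hx'.choose_spec
    have h2 := hy'.choose_spec
    have h3 : hx'.choose ≤ y := by
      by_contra hc
      exact h1.2 hxy (not_le.mp hc)
    exact lt_of_le_of_lt h3 h2.1
  · intro x hx
    have hx' : ∃ y, x ⋖ y := hx
    simp only [dif_pos hx']
    exact hx'.choose_spec.1.ne'

end Pool.Agent.Helper330.SRO
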