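import Pool.Agent.Helper330.SRO.Defs
import Pool.Agent.Helper330.SRO.P_jump

set_option autoImplicit false
set_option linter.all false

/-! # Suslin's hypothesis, the open colouring axiom and rigid chains -/

namespace Pool.Agent.Helper330.SRO
open Set Cardinal


theorem cellular (C : Type) [LinearOrder C] [TopologicalSpace C] [OrderTopology C]
    (U : Set (Set C)) (hU : ∀ V ∈ U, IsOpen V ∧ V.Nonempty) (hd : U.PairwiseDisjoint id)
    (hc : ¬ U.Countable) : Mover C := by
  classical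
  have hne : Nonempty C := by
    by_contra hcon
    apply hc
    have hUe : U = ∅ := by
      apply Set.eq_empty_of_forall_notMem
      intro V hV
      obtain ⟨c, _⟩ := (hU V hV).2
      exact hcon ⟨c⟩
    rw [hUe]
    exact Set.countable_empty
  have hx : ∀ V : Set C, ∃ c, V ∈ U → c ∈ V := by
    intro V
    by_cases hV : V ∈ U
    · obtain ⟨c, hc'⟩ := (hU V hV).2
      exact ⟨c, fun _ => hc'⟩
    · exact ⟨hne.some, fun h => absurd h hV⟩
  choose x hx using hx
  have huniq : ∀ V ∈ U, ∀ V' ∈ U, ∀ c, c ∈ V → c ∈ V' → V = V' := by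
    intro V hV V' hV' c h h'
    by_contra hne'
    have hdis : Disjoint V V' := hd hV hV' hne'
    exact Set.disjoint_left.1 hdis h h'
  by_cases hA : {c | ∃ V ∈ U, x V = c ∧ ∃ y, c < y ∧ Set.Icc c y ⊆ V}.Countable
  · apply jump
    intro hJ
    apply hc
    have hinj : Set.InjOn x U := by
      intro V hV V' hV' h
      exact huniq V hV V' hV' (x V) (hx V hV) (by rw [h]; exact hx V' hV')
    have h3 : {c : C | ∀ y, y ≤ c}.Countable := by
      apply Set.Subsingleton.countable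
      intro a ha b hb
      exact le_antisymm (hb a) (ha b)
    refine Set.countable_of_injective_of_countable_image hinj (((hA.union hJ).union h3).mono ?_)
    rintro _ ⟨V, hV, rfl⟩
    by_cases hmax : ∀ y, y ≤ x V
    · exact Or.inr hmax
    · left
      by_cases hA' : ∃ y, x V < y ∧ Set.Icc (x V) y ⊆ V
      · exact Or.inl ⟨V, hV, rfl, hA'⟩
      · right
        push Not at hmax
        obtain ⟨u, hu, huV⟩ := exists_Ico_subset_of_mem_nhds ((hU V hV).1.mem_nhds (hx V hV)) hmax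
        refine ⟨u, hu, fun w hw hwu => hA' ⟨w, hw, fun z hz => huV ⟨hz.1, hz.2.trans_lt hwu⟩⟩⟩
  · refine ⟨_, fun c => if h : ∃ y, c < y ∧ ∃ V ∈ U, Set.Icc c y ⊆ V then h.choose else c, hA,
      ?_, ?_⟩
    · rintro c ⟨V, hV, hVc, y, hy, hyV⟩ c' ⟨V', hV', hVc', y', hy', hyV'⟩ hcc
      have h1 : ∃ y, c < y ∧ ∃ V ∈ U, Set.Icc c y ⊆ V := ⟨y, hy, V, hV, hyV⟩
      have h1' : ∃ y, c' < y ∧ ∃ V ∈ U, Set.Icc c' y ⊆ V := ⟨y', hy', V', hV', hyV'⟩
      simp only [dif_pos h1, dif_pos h1']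
      obtain ⟨h2, W, hW, hWs⟩ := h1.choose_spec
      obtain ⟨h2', _⟩ := h1'.choose_spec
      refine lt_trans ?_ h2'
      by_contra hcon
      push Not at hcon
      have h3 : c' ∈ W := hWs ⟨hcc.le, hcon⟩
      have h4 : c ∈ W := hWs ⟨le_rfl, h2.le⟩
      have h5 : W = V := huniq W hW V hV c h4 (hyV ⟨le_rfl, hy.le⟩)
      have h6 : W = V' := huniq W hW V' hV' c' h3 (hyV' ⟨le_rfl, hy'.le⟩)
      have h7 : V = V' := h5.symm.trans h6
      apply hcc.ne
      rw [← hVc, ← hVc', h7]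
    · rintro c ⟨V, hV, hVc, y, hy, hyV⟩
      have h1 : ∃ y, c < y ∧ ∃ V ∈ U, Set.Icc c y ⊆ V := ⟨y, hy, V, hV, hyV⟩
      simp only [dif_pos h1]
      exact h1.choose_spec.1.ne'

end Pool.Agent.Helper330.SRO
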