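import Pool.Agent.Helper330.SRO.Defs

set_option autoImplicit false
set_option linter.all false

/-! # Suslin's hypothesis, the open colouring axiom and rigid chains -/

namespace Pool.Agent.Helper330.SRO
open Set Cardinal


theorem denseSet (C : Type) [LinearOrder C] [TopologicalSpace C] [OrderTopology C]
    [TopologicalSpace.SeparableSpace C] (h : {x : C | ∃ y, x ⋖ y}.Countable) :
    ∃ D : Set C, D.Countable ∧ ∀ x y, x < y → ∃ d ∈ D, x ≤ d ∧ d < y := by
  obtain ⟨s, hs, hd⟩ := TopologicalSpace.exists_countable_dense C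
  refine ⟨s ∪ {x : C | ∃ y, x ⋖ y}, hs.union h, ?_⟩
  intro x y hxy
  by_cases hne : (Set.Ioo x y).Nonempty
  · obtain ⟨d, hd1, hd2⟩ := hd.exists_mem_open isOpen_Ioo hne
    exact ⟨d, Or.inl hd1, hd2.1.le, hd2.2⟩
  · exact ⟨x, Or.inr ⟨y, hxy, fun z h1 h2 => hne ⟨z, h1, h2⟩⟩, le_rfl, hxy⟩

end Pool.Agent.Helper330.SRO
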