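import Pool.Agent.Helper330.SRO.Defs

set_option autoImplicit false
set_option linter.all false

/-! # Suslin's hypothesis, the open colouring axiom and rigid chains -/

namespace Pool.Agent.Helper330.SRO
open Set Cardinal


theorem embed (C : Type) [LinearOrder C] (D : Set C) (hD : D.Countable)
    (h : ∀ x y, x < y → ∃ d ∈ D, x ≤ d ∧ d < y) : ∃ φ : C → ℝ, StrictMono φ := by
  classical
  rcases D.eq_empty_or_nonempty with hE | hN
  · refine ⟨fun _ => 0, fun x y hxy => ?_⟩
    obtain ⟨d, hd, _⟩ := h x y hxy
    rw [hE] at hd
    exact absurd hd (Set.notMem_empty d)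
  · obtain ⟨d, hd⟩ := hD.exists_eq_range hN
    have hsum : ∀ x, Summable (fun n : ℕ => if d n < x then ((1:ℝ)/2)^n else 0) := by
      intro x
      refine Summable.of_nonneg_of_le ?_ ?_ summable_geometric_two
      · intro n
        split_ifs
        · positivity
        · exact le_refl _
      · intro n
        split_ifs
        · exact le_refl _
        · positivity
    refine ⟨fun x => ∑' n : ℕ, (if d n < x then ((1:ℝ)/2)^n else 0), fun x y hxy => ?_⟩
    obtain ⟨z, hz, hxz, hzy⟩ := h x y hxy
    rw [hd] at hz
    obtain ⟨n, rfl⟩ := hz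
    refine Summable.tsum_lt_tsum (i := n) ?_ ?_ (hsum x) (hsum y)
    · intro m
      show (if d m < x then ((1:ℝ)/2)^m else 0) ≤ (if d m < y then ((1:ℝ)/2)^m else 0)
      by_cases h1 : d m < x
      · rw [if_pos h1, if_pos (h1.trans hxy)]
      · rw [if_neg h1]
        split_ifs
        · positivity
        · exact le_refl _
    · rw [if_neg (not_lt.mpr hxz), if_pos hzy]
      positivity

end Pool.Agent.Helper330.SRO
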