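import Pool.Agent.Helper330.SRO.Defs

set_option autoImplicit false
set_option linter.all false

/-! # Suslin's hypothesis, the open colouring axiom and rigid chains -/

namespace Pool.Agent.Helper330.SRO
open Set Cardinal


theorem split (C : Type) (h : ¬ Countable C) :
    ∃ (J : Type) (g₀ g₁ g₂ : J → C), ¬ Countable J ∧ Function.Injective g₀ ∧
      Function.Injective g₁ ∧ Function.Injective g₂ ∧ (∀ i j, g₀ i ≠ g₁ j) ∧
      (∀ i j, g₀ i ≠ g₂ j) ∧ ∀ i j, g₁ i ≠ g₂ j := by
  have hC : ℵ₀ ≤ #C := by
    rw [Cardinal.aleph0_le_mk_iff]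
    by_contra hinf
    rw [not_infinite_iff_finite] at hinf
    exact h (Finite.to_countable)
  have hcard : #(C × Fin 3) = #C := by
    rw [Cardinal.mk_prod, Cardinal.lift_id, Cardinal.lift_id]
    refine Cardinal.mul_eq_left hC ?_ ?_
    · exact (Cardinal.lt_aleph0_of_finite (Fin 3)).le.trans hC
    · simp
  obtain ⟨e⟩ := Cardinal.eq.mp hcard
  refine ⟨C, fun i => e (i, 0), fun i => e (i, 1), fun i => e (i, 2), h, ?_, ?_, ?_, ?_, ?_, ?_⟩
  · intro i j hij
    exact (Prod.mk.inj (e.injective hij)).1
  · intro i j hij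
    exact (Prod.mk.inj (e.injective hij)).1
  · intro i j hij
    exact (Prod.mk.inj (e.injective hij)).1
  · intro i j hij
    exact absurd (Prod.mk.inj (e.injective hij)).2 (by decide)
  · intro i j hij
    exact absurd (Prod.mk.inj (e.injective hij)).2 (by decide)
  · intro i j hij
    exact absurd (Prod.mk.inj (e.injective hij)).2 (by decide)

end Pool.Agent.Helper330.SRO
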