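import Pool.Agent.Helper330.SRO.Defs

set_option autoImplicit false
set_option linter.all false

/-! # Suslin's hypothesis, the open colouring axiom and rigid chains -/

namespace Pool.Agent.Helper330.SRO
open Set Cardinal


theorem step (H : OpenColouringAxiom) (J : Type) (a b : J → ℝ) (ha : Function.Injective a)
    (hb : Function.Injective b) (E : Set J) (hE : ¬ E.Countable) :
    ∃ E' ⊆ E, ¬ E'.Countable ∧
      ((∀ i ∈ E', ∀ j ∈ E', a i < a j → b i < b j) ∨
        ∀ i ∈ E', ∀ j ∈ E', a i < a j → b j < b i) := by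
  classical
  let φ : J → ℝ × ℝ := fun i => (a i, b i)
  let S : Set (ℝ × ℝ) := φ '' E
  let U : S → S → Prop := fun p q => (p.1.1 < q.1.1 ∧ p.1.2 < q.1.2) ∨
    (q.1.1 < p.1.1 ∧ q.1.2 < p.1.2)
  have hsymm : ∀ x y, U x y → U y x := by
    intro x y hxy
    exact Or.symm hxy
  have hopen : IsOpen {p : S × S | p.1 ≠ p.2 ∧ U p.1 p.2} := by
    have e : {p : S × S | p.1 ≠ p.2 ∧ U p.1 p.2} = {p : S × S | U p.1 p.2} := by
      ext p
      constructor
      · exact fun h => h.2
      · intro h
        refine ⟨?_, h⟩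
        intro hp
        rcases h with h | h
        · rw [hp] at h; exact lt_irrefl _ h.1
        · rw [hp] at h; exact lt_irrefl _ h.1
    rw [e]
    have c11 : Continuous (fun p : S × S => p.1.1.1) :=
      continuous_fst.comp (continuous_subtype_val.comp continuous_fst)
    have c12 : Continuous (fun p : S × S => p.1.1.2) :=
      continuous_snd.comp (continuous_subtype_val.comp continuous_fst)
    have c21 : Continuous (fun p : S × S => p.2.1.1) :=
      continuous_fst.comp (continuous_subtype_val.comp continuous_snd)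
    have c22 : Continuous (fun p : S × S => p.2.1.2) :=
      continuous_snd.comp (continuous_subtype_val.comp continuous_snd)
    exact ((isOpen_lt c11 c21).inter (isOpen_lt c12 c22)).union
      ((isOpen_lt c21 c11).inter (isOpen_lt c22 c12))
  rcases H S U hsymm hopen with ⟨Y, hY, hYU⟩ | ⟨Z, hZ, hZU⟩
  · refine ⟨{i | i ∈ E ∧ φ i ∈ Subtype.val '' Y}, fun i hi => hi.1, ?_, Or.inl ?_⟩
    · intro hc
      apply hY
      have h1 : (Subtype.val '' Y : Set (ℝ × ℝ)) ⊆ φ '' {i | i ∈ E ∧ φ i ∈ Subtype.val '' Y} := by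
        intro x hx
        obtain ⟨y, hy, rfl⟩ := hx
        obtain ⟨i, hi, hiy⟩ := y.2
        exact ⟨i, ⟨hi, ⟨y, hy, hiy.symm⟩⟩, hiy⟩
      have h2 := (hc.image φ).mono h1
      exact Set.countable_of_injective_of_countable_image
        (Subtype.val_injective.injOn) h2
    · rintro i ⟨-, y, hy, hyi⟩ j ⟨-, z, hz, hzj⟩ hij
      have hne : y ≠ z := by
        intro h
        rw [h, hzj] at hyi
        have : a j = a i := congrArg Prod.fst hyi
        linarith
      have hy1 : y.1.1 = a i := congrArg Prod.fst hyi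
      have hy2 : y.1.2 = b i := congrArg Prod.snd hyi
      have hz1 : z.1.1 = a j := congrArg Prod.fst hzj
      have hz2 : z.1.2 = b j := congrArg Prod.snd hzj
      have hU := hYU y hy z hz hne
      simp only [U, hy1, hy2, hz1, hz2] at hU
      rcases hU with h | h
      · exact h.2
      · exact absurd h.1 (not_lt.mpr hij.le)
  · have hEn : ∃ n, ¬ ({i | i ∈ E ∧ φ i ∈ Subtype.val '' Z n} : Set J).Countable := by
      by_contra hcon
      push Not at hcon
      apply hE
      refine (Set.countable_iUnion hcon).mono ?_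
      intro i hi
      have h1 : (⟨φ i, ⟨i, hi, rfl⟩⟩ : S) ∈ ⋃ n, Z n := by rw [hZ]; trivial
      obtain ⟨n, hn⟩ := Set.mem_iUnion.mp h1
      exact Set.mem_iUnion.mpr ⟨n, hi, ⟨_, hn, rfl⟩⟩
    obtain ⟨n, hn⟩ := hEn
    refine ⟨{i | i ∈ E ∧ φ i ∈ Subtype.val '' Z n}, fun i hi => hi.1, hn, Or.inr ?_⟩
    rintro i ⟨-, y, hy, hyi⟩ j ⟨-, z, hz, hzj⟩ hij
    have hne : y ≠ z := by
      intro h
      rw [h, hzj] at hyi
      have : a j = a i := congrArg Prod.fst hyi
      linarith
    have hy1 : y.1.1 = a i := congrArg Prod.fst hyi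
    have hy2 : y.1.2 = b i := congrArg Prod.snd hyi
    have hz1 : z.1.1 = a j := congrArg Prod.fst hzj
    have hz2 : z.1.2 = b j := congrArg Prod.snd hzj
    have hU := hZU n y hy z hz hne
    simp only [U, hy1, hy2, hz1, hz2] at hU
    have hbne : b i ≠ b j := by
      intro h
      have := hb h
      rw [this] at hij
      exact lt_irrefl _ hij
    rcases lt_or_gt_of_ne hbne with h | h
    · exact absurd (Or.inl ⟨hij, h⟩) hU
    · exact h

end Pool.Agent.Helper330.SRO
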