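import Pool.Agent.Helper330.SRO.Defs
import Pool.Agent.Helper330.SRO.P_split
import Pool.Agent.Helper330.SRO.P_step

set_option autoImplicit false
set_option linter.all false

/-! # Suslin's hypothesis, the open colouring axiom and rigid chains -/

namespace Pool.Agent.Helper330.SRO
open Set Cardinal


theorem mover_of (C : Type) [LinearOrder C] (J : Type) (g g' : J → C) (hg : Function.Injective g)
    (hne : ∀ i j, g i ≠ g' j) (E : Set J) (hE : ¬ E.Countable)
    (hinc : ∀ i ∈ E, ∀ j ∈ E, g i < g j → g' i < g' j) : Mover C := by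
  refine ⟨g '' E, Function.extend g g' id, ?_, ?_, ?_⟩
  · intro hc
    exact hE (Set.countable_of_injective_of_countable_image hg.injOn hc)
  · rintro _ ⟨i, hi, rfl⟩ _ ⟨j, hj, rfl⟩ hij
    rw [hg.extend_apply, hg.extend_apply]
    exact hinc i hi j hj hij
  · rintro _ ⟨i, hi, rfl⟩
    rw [hg.extend_apply]
    exact (hne i i).symm

theorem real (H : OpenColouringAxiom) (C : Type) [LinearOrder C] (φ : C → ℝ) (hφ : StrictMono φ)
    (hC : ¬ Countable C) : Mover C := by
  obtain ⟨J, g₀, g₁, g₂, hJ, h0, h1, h2, h01, h02, h12⟩ := split C hC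
  have huniv : ¬ (Set.univ : Set J).Countable := by
    rw [Set.countable_univ_iff]; exact hJ
  obtain ⟨E1, -, hE1, hc | hc⟩ := step H J (φ ∘ g₀) (φ ∘ g₁) (hφ.injective.comp h0)
    (hφ.injective.comp h1) Set.univ huniv
  · exact mover_of C J g₀ g₁ h0 h01 E1 hE1 (fun i hi j hj hij =>
      hφ.lt_iff_lt.1 (hc i hi j hj (hφ.lt_iff_lt.2 hij)))
  · obtain ⟨E2, hE21, hE2, hd | hd⟩ := step H J (φ ∘ g₁) (φ ∘ g₂) (hφ.injective.comp h1)
      (hφ.injective.comp h2) E1 hE1
    · exact mover_of C J g₁ g₂ h1 h12 E2 hE2 (fun i hi j hj hij =>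
        hφ.lt_iff_lt.1 (hd i hi j hj (hφ.lt_iff_lt.2 hij)))
    · exact mover_of C J g₀ g₂ h0 h02 E2 hE2 (fun i hi j hj hij =>
        hφ.lt_iff_lt.1 (hd j hj i hi (hc i (hE21 hi) j (hE21 hj) (hφ.lt_iff_lt.2 hij))))

end Pool.Agent.Helper330.SRO
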