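import Pool.Agent.Helper330.SRO.Defs
import Pool.Agent.Helper330.SRO.P_jump
import Pool.Agent.Helper330.SRO.P_cellular
import Pool.Agent.Helper330.SRO.P_denseSet
import Pool.Agent.Helper330.SRO.P_embed
import Pool.Agent.Helper330.SRO.P_real

set_option autoImplicit false
set_option linter.all false

/-! # Suslin's hypothesis, the open colouring axiom and rigid chains -/

namespace Pool.Agent.Helper330.SRO
open Set Cardinal


theorem mover (H : OpenColouringAxiom) (H' : SuslinHypothesis) (C : Type) [LinearOrder C]
    (hC : ¬ Countable C) : Mover C := by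
  letI : TopologicalSpace C := Preorder.topology C
  haveI : OrderTopology C := ⟨rfl⟩
  by_contra hM
  have hsep : TopologicalSpace.SeparableSpace C := by
    refine H' C ?_
    intro U hU hd
    by_contra hc
    exact hM (cellular C U hU hd hc)
  have hj : {x : C | ∃ y, x ⋖ y}.Countable := by
    by_contra hc
    exact hM (jump C hc)
  obtain ⟨D, hD, hDd⟩ := denseSet C hj
  obtain ⟨φ, hφ⟩ := embed C D hD hDd
  exact hM (real H C φ hφ hC)

end Pool.Agent.Helper330.SRO
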